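import Pool.Agent.R903.GalZ

/-!
# Zero-cycles on K3 surfaces over number fields and conjugate points over quadratic extensions

Let `𝒞` be the class of K3 surfaces over `ℚ̄` with an antisymplectic involution (double planes, elliptic K3 surfaces
with a section, ...), and `𝒟` the class of K3 surfaces `X` whose `CH_0(X)_0 ⊗ ℚ` embeds into that of some member of `𝒞`
(all elliptic K3 surfaces). The following are equivalent:

* `CH_0(X)_0 ⊗ ℚ = 0` for all `X ∈ 𝒟`;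
* the same for the models of the members of `𝒞` over number fields;
* `CH_0(X_K̄) ⊗ ℚ` has trivial Galois action for all models over number fields `K` of members of `𝒞`;
* for quadratic extensions `L/K` of number fields, `CH_0(X_K) ⊗ ℚ → CH_0(X_L) ⊗ ℚ` is onto;
* for quadratic extensions `L/K`, each `x ∈ X(L)` is rationally equivalent (modulo torsion) to its conjugate;
* the same for a single quadratic extension `L/K`, for arbitrarily large number fields `K`.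
-/

namespace Pool.Agent.Results.MP_9207e0_ag.ConjugatePoints

open Pool.Agent.R903.GalZ

variable {G : Type} [Group G] (Z : ZeroCycles G) (𝒞 𝒟 : Set Z.Var)

/-- `X` has an involution (over the algebraic closure) which acts by `-1` on zero-cycles of degree 0. -/
def HasAntiInvolution (X : Z.Var) : Prop :=
  ∃ j : Z.A X, Z.IsInvolution X j ∧ ∀ z : Z.Ch X, Z.deg X z = 0 → Z.act X j z = -z

/-- zero-cycles of degree 0 on `X` embed into zero-cycles of degree 0 on some `X' ∈ 𝒞`. -/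
def EmbedsInto (X : Z.Var) : Prop :=
  ∃ X' ∈ 𝒞, ∃ f : Z.Ch X →ₗ[ℚ] Z.Ch X', ∀ z, Z.deg X z = 0 → Z.deg X' (f z) = 0 ∧ (f z = 0 → z = 0)

/-- (1) `CH_0(X)_0 ⊗ ℚ = 0` for all `X ∈ 𝒟`. -/
def VanishesOn : Prop := ∀ X ∈ 𝒟, ∀ z : Z.Ch X, Z.deg X z = 0 → z = 0

/-- (2) `CH_0(X_K)_0 ⊗ ℚ = 0` for all models of `X ∈ 𝒞` over finite extensions `K` of the base field. -/
def VanishesOverExtensions : Prop :=
  ∀ X ∈ 𝒞, ∀ U s, Z.IsModel X U s → ∀ z, Z.DefinedOver X U s z → Z.deg X z = 0 → z = 0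

/-- (3) the Galois group of `K` acts trivially on zero-cycles, for all models. -/
def GaloisTrivial : Prop :=
  ∀ X ∈ 𝒞, ∀ U s, Z.IsModel X U s → ∀ z, Z.DefinedOver X U s z

/-- (4) `CH_0(X_K) ⊗ ℚ → CH_0(X_L) ⊗ ℚ` is onto for quadratic extensions `L/K`. -/
def NoQuadraticGrowth : Prop :=
  ∀ X ∈ 𝒞, ∀ U s, Z.IsModel X U s → ∀ V, Z.IsQuad V U → ∀ z,
    Z.DefinedOver X V s z → Z.DefinedOver X U s z

/-- For the given fields `K ⊂ L` (with Galois groups `U`, `V`): for all models over `K` of members of `𝒞`, each point over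
`L` is rationally equivalent (rational coefficients) to its conjugates over `K`. -/
def PointsConjugate (V U : Subgroup G) : Prop :=
  ∀ X ∈ 𝒞, ∀ s, Z.IsModel X U s → ∀ x : Z.P X, (∀ σ ∈ V, s σ • x = x) →
    ∀ σ ∈ U, Z.cl X (s σ • x) = Z.cl X x

/-- (5) this holds for all quadratic extensions `L/K`. -/
def QuadraticPoints : Prop := ∀ V U, Z.IsQuad V U → PointsConjugate Z 𝒞 V U

/-- (6) for each `K₀` it holds for some quadratic extension `L/K` with `K ⊃ K₀`. -/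
def CofinalQuadraticPoints : Prop :=
  ∀ U₀, Z.IsOpen U₀ → ∃ V U, U ≤ U₀ ∧ Z.IsOpen U ∧ Z.IsQuad V U ∧ PointsConjugate Z 𝒞 V U

/-- `j` fixes the class of each point. -/
theorem cl_fixed (h6 : CofinalQuadraticPoints Z 𝒞) {X : Z.Var} (hX : X ∈ 𝒞) {j : Z.A X}
    (hj : Z.IsInvolution X j) (x : Z.P X) : Z.cl X (j • x) = Z.cl X x := by
  obtain ⟨U₁, s, hs⟩ := Z.exists_model X
  obtain ⟨V₂, h1, h2, h3⟩ := Z.model_aut X U₁ s hs j hj.1
  obtain ⟨V₃, h4, h5, h7⟩ := Z.model_point X U₁ s hs x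
  obtain ⟨V, U, hU, hUo, hq, hp⟩ := h6 (V₂ ⊓ V₃) (Z.open_inf _ _ h1 h4)
  have hle : U ≤ U₁ := hU.trans (inf_le_left.trans h2)
  have hsU : Z.IsModel X U s := Z.model_res X U₁ s hs U hUo hle
  have htw := ZeroCycles.twist_model hsU hq hj (fun σ hσ => h3 σ (hU hσ).1)
  have hfix : ∀ σ ∈ V, Z.twist V s j σ • x = x := fun σ hσ => by
    have : Z.twist V s j σ = s σ := by simp [ZeroCycles.twist, hσ]
    rw [this]
    exact h7 σ (hU (hq.2.1 hσ)).2
  obtain ⟨σ, hσ, hσV⟩ := ZeroCycles.quad_exists hq.2.2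
  have h := hp X hX _ htw x hfix σ hσ
  have h8 : Z.twist V s j σ = j * s σ := by simp [ZeroCycles.twist, hσV]
  rw [h8, mul_smul, h7 σ (hU hσ).2] at h
  exact h

theorem six_one (h𝒞 : ∀ X ∈ 𝒞, HasAntiInvolution Z X) (h6 : CofinalQuadraticPoints Z 𝒞) :
    VanishesOn Z 𝒞 := by
  intro X hX z hz
  obtain ⟨j, hj, hja⟩ := h𝒞 X hX
  obtain ⟨x₀⟩ := Z.nonempty X
  have hall : ∀ x, Z.cl X x = Z.cl X x₀ := fun x => by
    have hd : Z.deg X (Z.cl X x - Z.cl X x₀) = 0 := by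
      rw [map_sub, Z.deg_cl, Z.deg_cl, sub_self]
    have h1 := hja _ hd
    rw [map_sub, Z.act_cl, Z.act_cl, cl_fixed Z 𝒞 h6 hX hj x, cl_fixed Z 𝒞 h6 hX hj x₀] at h1
    exact sub_eq_zero.mp (ZeroCycles.eq_zero_of_neg h1.symm)
  rw [ZeroCycles.mem_span_point x₀ hall z, hz, zero_smul]

/-- **Theorem.** -/
theorem result {G : Type} [Group G] (Z : ZeroCycles G) (𝒞 𝒟 : Set Z.Var)
    (h𝒞 : ∀ X ∈ 𝒞, HasAntiInvolution Z X) (h𝒟 : 𝒞 ⊆ 𝒟) (hE : ∀ X ∈ 𝒟, EmbedsInto Z 𝒞 X) :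
    [VanishesOn Z 𝒟, VanishesOverExtensions Z 𝒞, GaloisTrivial Z 𝒞, NoQuadraticGrowth Z 𝒞,
      QuadraticPoints Z 𝒞, CofinalQuadraticPoints Z 𝒞].TFAE := by
  have h61 : CofinalQuadraticPoints Z 𝒞 → VanishesOn Z 𝒟 := fun h6 X hX z hz => by
    obtain ⟨X', hX', f, hf⟩ := hE X hX
    exact (hf z hz).2 (six_one Z 𝒞 h𝒞 h6 X' hX' (f z) (hf z hz).1)
  tfae_have 1 → 2 := fun h X hX _ _ _ z _ hz => h X (h𝒟 hX) z hz
  tfae_have 2 → 3 := by
    intro h X hX U s hs z σ hσ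
    have hd : Z.deg X (Z.act X (s σ) z - z) = 0 := by
      rw [map_sub, ZeroCycles.deg_act, sub_self]
    obtain ⟨V, hV, hVU, hz⟩ := ZeroCycles.model_cycle hs (Z.act X (s σ) z - z)
    exact sub_eq_zero.mp (h X hX V s (Z.model_res X U s hs V hV hVU) _ hz hd)
  tfae_have 3 → 4 := fun h X hX U s hs _ _ z _ => h X hX U s hs z
  tfae_have 4 → 5 := by
    intro h V U hq X hX s hs x hx σ hσ
    rw [← Z.act_cl]
    exact h X hX U s hs V hq (Z.cl X x) (fun τ hτ => by rw [Z.act_cl, hx τ hτ]) σ hσ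
  tfae_have 5 → 6 := by
    intro h U₀ hU₀
    obtain ⟨V, hV, hVU, h2⟩ := Z.exists_quad U₀ hU₀
    exact ⟨V, U₀, le_refl _, hU₀, ⟨hV, hVU, h2⟩, h V U₀ ⟨hV, hVU, h2⟩⟩
  tfae_have 6 → 1 := h61
  tfae_finish

end Pool.Agent.Results.MP_9207e0_ag.ConjugatePoints
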