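import Pool.Agent.R903.GalZ

/-!
# K3 surfaces, Albanese kernels and quadratic extensions of number fields

Let `𝒮` be a class of smooth projective varieties over the algebraic closure of a field `k` (for example all surfaces
over `ℚ̄`) and let `F² X ⊂ CH_0(X)_0 ⊗ ℚ` be the Albanese kernel. Each `X` of dimension `n` is dominated by a variety `Y`
with a faithful action of a symmetric group such that `Y / S_d` is birational to `ℙⁿ` (Galois closure of a generic
projection `X → ℙⁿ`), and a symmetric group is generated by involutions. With quadratic twists by these involutions it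
follows that `F² X = 0` for all `X ∈ 𝒮` if and only if `F² (X_K) → F² (X_L)` is onto for quadratic extensions `L/K` of
number fields. For K3 surfaces `F² X` is the group of all zero-cycles of degree 0.
-/

namespace Pool.Agent.Results.MP_9207e0_ag.InvolutiveCovers

open Pool.Agent.R903.GalZ

variable {G : Type} [Group G] (Z : ZeroCycles G) (F : ∀ X : Z.Var, Submodule ℚ (Z.Ch X)) (𝒮 : Set Z.Var)

/-- The Albanese kernels are stable under semilinear automorphisms. -/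
def IsStable : Prop := ∀ X, ∀ a : Z.A X, ∀ z ∈ F X, Z.act X a z ∈ F X

/-- Each `z ∈ F² X` is the image of some `w ∈ F² Y`, `Y ∈ 𝒮`, where a finite group `Γ` of automorphisms of `Y` generated
by involutions has `∑_{γ ∈ Γ} γ v = 0` for all `v ∈ F² Y` (`Y / Γ` is rational). -/
def HasInvolutiveCovers : Prop :=
  ∀ X ∈ 𝒮, ∀ z ∈ F X, ∃ Y ∈ 𝒮, ∃ f : Z.Ch Y →ₗ[ℚ] Z.Ch X, ∃ w ∈ F Y, f w = z ∧
    ∃ (Γ : Finset (Z.A Y)) (T : Set (Z.A Y)), Γ.Nonempty ∧ (∀ t ∈ T, Z.IsInvolution Y t) ∧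
      (∀ γ ∈ Γ, γ ∈ Subgroup.closure T) ∧ ∀ v ∈ F Y, ∑ γ ∈ Γ, Z.act Y γ v = 0

/-- (1) the Albanese kernels vanish. -/
def KernelsVanish : Prop := ∀ X ∈ 𝒮, ∀ z ∈ F X, z = 0

/-- (2) the Galois groups act trivially on the Albanese kernels. -/
def GaloisTrivial : Prop := ∀ X ∈ 𝒮, ∀ U s, Z.IsModel X U s → ∀ z ∈ F X, Z.DefinedOver X U s z

/-- For the given fields `K ⊂ L` (with Galois groups `U ⊃ V`): `F² (X_K) → F² (X_L)` is onto for all models over `K` of
members of `𝒮`. -/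
def NoGrowth (V U : Subgroup G) : Prop :=
  ∀ X ∈ 𝒮, ∀ s, Z.IsModel X U s → ∀ z ∈ F X, Z.DefinedOver X V s z → Z.DefinedOver X U s z

/-- (3) this holds for all quadratic extensions `L/K`. -/
def NoQuadraticGrowth : Prop := ∀ V U, Z.IsQuad V U → NoGrowth Z F 𝒮 V U

/-- (4) for each `K₀` it holds for some quadratic extension `L/K` with `K ⊃ K₀`. -/
def CofinalNoGrowth : Prop :=
  ∀ U₀, Z.IsOpen U₀ → ∃ V U, U ≤ U₀ ∧ Z.IsOpen U ∧ Z.IsQuad V U ∧ NoGrowth Z F 𝒮 V U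

/-- involutions act trivially on Albanese kernels. -/
theorem involution_fix (hF : IsStable Z F) (h4 : CofinalNoGrowth Z F 𝒮) {X : Z.Var} (hX : X ∈ 𝒮)
    {j : Z.A X} (hj : Z.IsInvolution X j) (w : Z.Ch X) (hw : w ∈ F X) : Z.act X j w = w := by
  have hjj : Z.act X j (Z.act X j w) = w := by
    have h := congrArg (fun g => g w) (map_mul (Z.act X) j j)
    rw [hj.2, map_one] at h
    simpa using h.symm
  set v := w - Z.act X j w with hv
  have hvF : v ∈ F X := (F X).sub_mem hw (hF X j w hw)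
  have hjv : Z.act X j v = -v := by rw [hv, map_sub, hjj]; abel
  obtain ⟨U₁, s, hs⟩ := Z.exists_model X
  obtain ⟨V₂, h1, h2, h3⟩ := Z.model_aut X U₁ s hs j hj.1
  obtain ⟨V₃, h5, h6, h7⟩ := ZeroCycles.model_cycle hs v
  obtain ⟨V, U, hU, hUo, hq, hp⟩ := h4 (V₂ ⊓ V₃) (Z.open_inf _ _ h1 h5)
  have hle : U ≤ U₁ := hU.trans (inf_le_left.trans h2)
  have hsU : Z.IsModel X U s := Z.model_res X U₁ s hs U hUo hle
  have htw := ZeroCycles.twist_model hsU hq hj (fun σ hσ => h3 σ (hU hσ).1)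
  have hfix : Z.DefinedOver X V (Z.twist V s j) v := fun σ hσ => by
    have : Z.twist V s j σ = s σ := by simp [ZeroCycles.twist, hσ]
    rw [this]
    exact h7 σ (hU (hq.2.1 hσ)).2
  obtain ⟨σ, hσ, hσV⟩ := ZeroCycles.quad_exists hq.2.2
  have h := hp X hX _ htw v hvF hfix σ hσ
  have h8 : Z.twist V s j σ = j * s σ := by simp [ZeroCycles.twist, hσV]
  rw [h8, map_mul] at h
  have h9 : Z.act X j (Z.act X (s σ) v) = v := by simpa using h
  rw [h7 σ (hU hσ).2, hjv] at h9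
  have h10 : v = 0 := ZeroCycles.eq_zero_of_neg h9
  rw [hv] at h10
  exact (sub_eq_zero.mp h10).symm

theorem four_one (hF : IsStable Z F) (hC : HasInvolutiveCovers Z F 𝒮) (h4 : CofinalNoGrowth Z F 𝒮) :
    KernelsVanish Z F 𝒮 := by
  intro X hX z hz
  obtain ⟨Y, hY, f, w, hw, rfl, Γ, T, hΓ, hT, hΓT, hsum⟩ := hC X hX z hz
  have hfix : ∀ γ ∈ Subgroup.closure T, Z.act Y γ w = w := by
    intro γ hγ
    induction hγ using Subgroup.closure_induction with
    | mem t ht => exact involution_fix Z F 𝒮 hF h4 hY (hT t ht) w hw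
    | one => simp
    | mul a b _ _ ha hb => rw [map_mul]; simp [ha, hb]
    | inv a _ ha =>
      have h := congrArg (fun g => g w) (map_mul (Z.act Y) a⁻¹ a)
      rw [inv_mul_cancel, map_one] at h
      have h' : w = Z.act Y a⁻¹ (Z.act Y a w) := by simpa using h
      rw [ha] at h'
      exact h'.symm
  have hs := hsum w hw
  rw [Finset.sum_congr rfl (fun γ hγ => hfix γ (hΓT γ hγ)), Finset.sum_const, ← Nat.cast_smul_eq_nsmul ℚ] at hs
  have hc : (Γ.card : ℚ) ≠ 0 := by exact_mod_cast (Finset.card_pos.mpr hΓ).ne'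
  rw [(smul_eq_zero.mp hs).resolve_left hc, map_zero]

/-- **Theorem.** -/
theorem result {G : Type} [Group G] (Z : ZeroCycles G) (F : ∀ X : Z.Var, Submodule ℚ (Z.Ch X))
    (𝒮 𝒦 : Set Z.Var) (hF : IsStable Z F) (hC : HasInvolutiveCovers Z F 𝒮) (h𝒦 : 𝒦 ⊆ 𝒮)
    (hK : ∀ X ∈ 𝒦, ∀ z : Z.Ch X, Z.deg X z = 0 → z ∈ F X) :
    [KernelsVanish Z F 𝒮, GaloisTrivial Z F 𝒮, NoQuadraticGrowth Z F 𝒮, CofinalNoGrowth Z F 𝒮].TFAE ∧
    (CofinalNoGrowth Z F 𝒮 → ∀ X ∈ 𝒦, ∀ z : Z.Ch X, Z.deg X z = 0 → z = 0) := by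
  refine ⟨?_, fun h4 X hX z hz => four_one Z F 𝒮 hF hC h4 X (h𝒦 hX) z (hK X hX z hz)⟩
  tfae_have 1 → 2 := by
    intro h X hX U s _ z hz σ _
    rw [h X hX z hz, map_zero]
  tfae_have 2 → 3 := fun h V U _ X hX s hs z hz _ => h X hX U s hs z hz
  tfae_have 3 → 4 := by
    intro h U₀ hU₀
    obtain ⟨V, hV, hVU, h2⟩ := Z.exists_quad U₀ hU₀
    exact ⟨V, U₀, le_refl _, hU₀, ⟨hV, hVU, h2⟩, h V U₀ ⟨hV, hVU, h2⟩⟩
  tfae_have 4 → 1 := fun h4 => four_one Z F 𝒮 hF hC h4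
  tfae_finish

end Pool.Agent.Results.MP_9207e0_ag.InvolutiveCovers
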