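import Pool.Agent.R936.Iso.Main

/-!
# Zero-cycles on a K3 surface and isotropic divisor classes on its blow-ups

Let `X` be a smooth projective surface over an algebraically closed field, for example a K3 surface
over the algebraic numbers. Chow groups have rational coefficients. The theorem says that all
zero-cycles of degree zero on `X` are rationally equivalent to zero if and only if every isotropic
divisor class `D` (one with self-intersection number `0`) on a blow-up `Y` of `X` in four distinct
points has square zero in `CH ^ 2 (Y)`. One class suffices: if `L ^ 2 = ∑ a_i ^ 2`, it is enough
that `(π ^* L - ∑ a_i E_i) ^ 2 = 0` on all blow-ups in `m` points; for a quartic surface one can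
take `L - 2 E` on the blow-ups in one point, for a double plane `L - E_1 - E_2` on the blow-ups in
two points.

*Proof.* The direct image of `(π ^* L - ∑ a_i E_i) ^ 2` is `L ^ 2 - ∑ a_i ^ 2 x_i`. If it is `0` for
all points `x_i`, then all points with coefficient `a_i ≠ 0`, hence all points of `X`, have the same
class. Such an isotropic class exists with four points by the theorem of Lagrange on sums of four
squares.
-/

open Pool.Agent.H914 Pool.Agent.R903 Pool.Agent.R936.Iso

universe u v

namespace Pool.Agent.Results.MP_9207e0_ag.IsotropicDivisors

/-- For a surface `X` these are equivalent: homologically trivial zero-cycles are `0` in the Chow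
group; isotropic divisor classes on the blow-ups of `X` in finitely many points have square zero;
the same for four points; for some `L` and integers `a_i`, not all zero, with `L ^ 2 = ∑ a_i ^ 2`
the class `π ^* L - ∑ a_i E_i` has square zero on all blow-ups in `m` points. -/
theorem result {k : Type u} [Field k] {𝒱 : VarClass k} (C : ChowTheory.{u, v} 𝒱) (X : 𝒱.Obj)
    (hX : SurfaceFacts C X) :
    List.TFAE [NoZeroCycles C X,
      ∀ m, IsotropicSquares C X m,
      IsotropicSquares C X 4,
      ∃ (m : ℕ) (L : C.CH X) (a : Fin m → ℤ), OneIsotropicClass C X m L a] :=
  main hX

end Pool.Agent.Results.MP_9207e0_ag.IsotropicDivisors
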