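import Pool.Agent.R368.K3.Main

/-!
# Zero-cycles on a K3 surface and on its products with curves

Let `𝒱` be a class of smooth projective varieties over an algebraically closed field `k` (the field
of algebraic numbers, in the problem) which is closed under products, with Chow groups `C` (rational
coefficients) and a Weil cohomology theory `W`. Assume the known facts `HasOneCycleFacts` and
`PointsOfProducts`. Let `X` in `𝒱` be of dimension `n > 0` with `H^(2n-1)(X) = 0`, for example a K3
surface. The following are equivalent:

1. `CH^n(X)_hom = 0`, that is `CH^n(X)` is one-dimensional (for a K3 surface: Q1 for `X`).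
2. For all curves `Γ`, Beilinson's arithmetic Lefschetz conjecture holds for divisors on `Γ × X`:
   `D^n : CH^1(Γ × X)_hom → CH^(n+1)(Γ × X)_hom` is bijective for all divisor classes `D` for which
   the inverse of `D^n : H^1(Γ × X) → H^(2n+1)(Γ × X)` is algebraic.
3. For all curves `Γ` this map is surjective for some such `D`.
4. For all curves `Γ`, self-correspondences of `Γ × X` of degree zero which act as zero on
   `H^(2n+1)(Γ × X)` kill `CH^(n+1)(Γ × X)_hom`.
5. For all curves `Γ`, homologically trivial self-correspondences of `Γ × X` of degree zero kill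
   `CH^(n+1)(Γ × X)_hom`.
6. For all curves `Γ`, homologically trivial classes in `CH^n(Γ × X)` kill `CH^1(Γ)_hom`.

If the products `Γ × X` satisfy the standard conjecture of Künneth type (known for surfaces `X`), then
this holds if and only if for all curves `Γ` all degree operators on `Γ × X` act on
`CH^(n+1)(Γ × X)_hom` as multiplication by `2n + 1`.
-/

open Pool.Agent.H914 Pool.Agent.R903 Pool.Agent.R368 Pool.Agent.R368.Zero Pool.Agent.R368.K3

universe u v w

namespace Pool.Agent.Results.MP_9207e0_ag.ProductsWithCurves

theorem result {k : Type u} [Field k] {𝒱 : VarClass k} {C : ChowTheory.{u, v} 𝒱}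
    (W : WeilTheory.{u, v, w} C) (hF : HasOneCycleFacts W) (hP : PointsOfProducts C) (X : 𝒱.Obj)
    (hX : NoAlbanese W X) :
    List.TFAE [NoPoints W X, ForCurves fun Γ : 𝒱.Obj => LefAll W (Γ.prod X),
      ForCurves fun Γ : 𝒱.Obj => LefSome W (Γ.prod X),
      ForCurves fun Γ : 𝒱.Obj => WeightKills W (Γ.prod X),
      ForCurves fun Γ : 𝒱.Obj => HomTrivKills W (Γ.prod X) (Γ.prod X),
      ForCurves fun Γ : 𝒱.Obj => HomTrivKills W Γ X] ∧
    ((ForCurves fun Γ : 𝒱.Obj => KunnethFor W (Γ.prod X)) →
      (NoPoints W X ↔ ForCurves fun Γ : 𝒱.Obj => DegreeScales W (Γ.prod X))) :=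
  ⟨noPoints_tfae hF hP hX, noPoints_iff_degree hF hP hX⟩

end Pool.Agent.Results.MP_9207e0_ag.ProductsWithCurves
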